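import Mathlib
import Pool.Graph.R_pool_sql_team_seeded_3997aac3.Q95.HeisA

/-!
# Step-two groups `X × Z` over Banach spaces: the Carnot-Carathéodory distance

`ω : X × X → Z` is a bounded antisymmetric bilinear map into a finite-dimensional space.
-/

set_option autoImplicit false

namespace Pool.Agent.KS6_94.UM

open Set MeasureTheory
open scoped ENNReal NNReal Topology

variable {X Z : Type*} [NormedAddCommGroup X] [NormedSpace ℝ X] [NormedAddCommGroup Z]
  [NormedSpace ℝ Z]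

/-- The value `ω(x, y)`. -/
noncomputable abbrev ap (ω : X →L[ℝ] X →L[ℝ] Z) (x y : X) : Z := ω x y

/-- Horizontal curves `[0, 1] → X × Z`: Lipschitz pairs `(γ, z)` with `z' = ω(γ, γ')` almost
everywhere. -/
structure Horizontal (ω : X →L[ℝ] X →L[ℝ] Z) (γ : ℝ → X) (z : ℝ → Z) : Prop where
  lip_fst : ∃ C : ℝ≥0, LipschitzOnWith C γ (Icc 0 1)
  lip_snd : ∃ C : ℝ≥0, LipschitzOnWith C z (Icc 0 1)
  deriv : ∀ᵐ t : ℝ, t ∈ Ioo (0 : ℝ) 1 →
    DifferentiableAt ℝ γ t ∧ HasDerivAt z (ap ω (γ t) (_root_.deriv γ t)) t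

/-- The Carnot-Carathéodory distance: the infimum of the lengths (variations) of `γ` over all
horizontal curves `(γ, z)` from `p` to `q`. -/
noncomputable def dcc (ω : X →L[ℝ] X →L[ℝ] Z) (p q : X × Z) : ℝ≥0∞ :=
  ⨅ (γ : ℝ → X) (z : ℝ → Z) (_ : Horizontal ω γ z) (_ : (γ 0, z 0) = p) (_ : (γ 1, z 1) = q),
    eVariationOn γ (Icc 0 1)

/-- The displacement along a horizontal curve. -/
theorem displacement {ω : X →L[ℝ] X →L[ℝ] Z} (hω : ∀ x, ω x x = 0) {γ : ℝ → X} {z : ℝ → Z}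
    (h : Horizontal ω γ z) :
    eVariationOn γ (Icc 0 1) ≠ ∞ ∧
    ‖γ 1 - γ 0‖ ≤ (eVariationOn γ (Icc 0 1)).toReal ∧
    ‖z 1 - z 0 - ω (γ 0) (γ 1)‖ ≤ ‖ω‖ * (eVariationOn γ (Icc 0 1)).toReal ^ 2 := by
  have key : ∀ f : StrongDual ℝ Z, eVariationOn γ (Icc 0 1) ≠ ∞ ∧
      ‖γ 1 - γ 0‖ ≤ (eVariationOn γ (Icc 0 1)).toReal ∧
      ‖f (z 1 - z 0 - ω (γ 0) (γ 1))‖ ≤ ‖f‖ * ‖ω‖ * (eVariationOn γ (Icc 0 1)).toReal ^ 2 := by
    intro f
    let ωf : X →L[ℝ] X →L[ℝ] ℝ := (ContinuousLinearMap.compL ℝ X Z ℝ f).comp ω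
    have hωf : ∀ x y, ωf x y = f (ω x y) := fun x y => rfl
    have hH : Q95.Heis.Horizontal ωf γ (fun t => f (z t)) := by
      refine ⟨h.lip_fst, ?_, ?_⟩
      · obtain ⟨C, hC⟩ := h.lip_snd
        exact ⟨‖f‖₊ * C, f.lipschitz.comp_lipschitzOnWith hC⟩
      · filter_upwards [h.deriv] with t ht hto
        obtain ⟨h1, h2⟩ := ht hto
        exact ⟨h1, f.hasFDerivAt.comp_hasDerivAt t h2⟩
    obtain ⟨h1, h2, h3⟩ := Q95.Heis.displacement (fun x => by rw [hωf, hω, map_zero]) hH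
    refine ⟨h1, h2, ?_⟩
    have h4 : ‖ωf‖ ≤ ‖f‖ * ‖ω‖ := by
      refine ContinuousLinearMap.opNorm_le_bound₂ _ (by positivity) fun x y => ?_
      rw [hωf]
      refine (f.le_opNorm _).trans ?_
      have := ω.le_opNorm₂ x y
      calc ‖f‖ * ‖ω x y‖ ≤ ‖f‖ * (‖ω‖ * ‖x‖ * ‖y‖) := by gcongr
        _ = _ := by ring
    have h5 : f (z 1 - z 0 - ω (γ 0) (γ 1)) = f (z 1) - f (z 0) - ωf (γ 0) (γ 1) := by
      rw [hωf, map_sub, map_sub]
    rw [h5]
    refine h3.trans ?_
    gcongr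
  obtain ⟨h1, h2, -⟩ := key 0
  refine ⟨h1, h2, ?_⟩
  refine NormedSpace.norm_le_dual_bound ℝ _ (by positivity) fun f => ?_
  refine (key f).2.2.trans (le_of_eq ?_)
  ring

lemma lip_const {E : Type*} [NormedAddCommGroup E] [NormedSpace ℝ E] (f : ℝ → E) (a : E)
    (h : ∀ t, HasDerivAt f a t) : LipschitzOnWith ‖a‖₊ f (Icc 0 1) :=
  (convex_Icc (0 : ℝ) 1).lipschitzOnWith_of_nnnorm_hasDerivWithin_le
    (fun t _ => (h t).hasDerivWithinAt) fun _ _ => le_rfl

/-- The straight move. -/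
lemma dcc_straight {ω : X →L[ℝ] X →L[ℝ] Z} (hω : ∀ x, ω x x = 0) (x v : X) (s : Z) :
    dcc ω (x, s) (x + v, s + ω x v) ≤ ENNReal.ofReal ‖v‖ := by
  have hγd : ∀ t : ℝ, HasDerivAt (fun t : ℝ => x + t • v) v t := fun t => by
    have := ((hasDerivAt_id t).smul_const v).const_add x
    rwa [one_smul] at this
  have hzd : ∀ t : ℝ, HasDerivAt (fun t : ℝ => s + t • ω x v) (ω x v) t := fun t => by
    have := ((hasDerivAt_id t).smul_const (ω x v)).const_add s
    rwa [one_smul] at this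
  have hH : Horizontal ω (fun t : ℝ => x + t • v) (fun t : ℝ => s + t • ω x v) := by
    refine ⟨⟨_, lip_const _ _ hγd⟩, ⟨_, lip_const _ _ hzd⟩, Filter.Eventually.of_forall fun t _ =>
      ⟨(hγd t).differentiableAt, ?_⟩⟩
    rw [(hγd t).deriv]
    have : ap ω (x + t • v) v = ω x v := by simp [ap, hω]
    rw [this]
    exact hzd t
  have h0 : ((fun t : ℝ => x + t • v) 0, (fun t : ℝ => s + t • ω x v) 0) = (x, s) := by simp
  have h1 : ((fun t : ℝ => x + t • v) 1, (fun t : ℝ => s + t • ω x v) 1) =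
      (x + v, s + ω x v) := by simp
  have hle : dcc ω (x, s) (x + v, s + ω x v) ≤
      eVariationOn (fun t : ℝ => x + t • v) (Icc 0 1) :=
    iInf_le_of_le _ (iInf_le_of_le _ (iInf_le_of_le hH (iInf_le_of_le h0
      (iInf_le_of_le h1 le_rfl))))
  refine hle.trans ?_
  have := Q95.Heis.eVar_le (lip_const _ _ hγd) (le_refl (0 : ℝ)) zero_le_one le_rfl
  rw [sub_zero, ENNReal.ofReal_one, mul_one] at this
  rwa [← coe_nnnorm, ENNReal.ofReal_coe_nnreal]

/-- Two Lipschitz functions that match at the middle glue to a Lipschitz function. -/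
lemma glue_lip {E : Type*} [PseudoMetricSpace E] {f g : ℝ → E} {C D : ℝ≥0}
    (hf : LipschitzOnWith C f (Icc 0 1)) (hg : LipschitzOnWith D g (Icc 0 1)) (h : f 1 = g 0) :
    LipschitzOnWith (2 * max C D) (fun t : ℝ => if t ≤ 1 / 2 then f (2 * t) else g (2 * t - 1))
      (Icc 0 1) := by
  apply LipschitzOnWith.of_dist_le_mul
  have hC : (C : ℝ) ≤ max C D := by exact_mod_cast le_max_left C D
  have hD : (D : ℝ) ≤ max C D := by exact_mod_cast le_max_right C D
  have key : ∀ s ∈ Icc (0 : ℝ) 1, ∀ t ∈ Icc (0 : ℝ) 1, s ≤ t →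
      dist (if s ≤ 1 / 2 then f (2 * s) else g (2 * s - 1))
        (if t ≤ 1 / 2 then f (2 * t) else g (2 * t - 1)) ≤ 2 * max C D * (t - s) := by
    intro s hs t ht hst
    by_cases h2 : t ≤ 1 / 2
    · rw [if_pos (hst.trans h2), if_pos h2]
      have h3 := hf.dist_le_mul (2 * s) ⟨by linarith [hs.1], by linarith⟩ (2 * t)
        ⟨by linarith [ht.1], by linarith⟩
      rw [Real.dist_eq, abs_of_nonpos (by linarith)] at h3
      refine h3.trans ?_
      nlinarith
    · by_cases h1 : s ≤ 1 / 2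
      · rw [if_pos h1, if_neg h2]
        have h3 := hf.dist_le_mul (2 * s) ⟨by linarith [hs.1], by linarith⟩ 1
          ⟨zero_le_one, le_rfl⟩
        have h4 := hg.dist_le_mul 0 ⟨le_rfl, zero_le_one⟩ (2 * t - 1)
          ⟨by linarith, by linarith [ht.2]⟩
        rw [Real.dist_eq, abs_of_nonpos (by linarith)] at h3 h4
        rw [h] at h3
        refine (dist_triangle _ _ _).trans ((add_le_add h3 h4).trans ?_)
        nlinarith
      · rw [if_neg h1, if_neg h2]
        have h3 := hg.dist_le_mul (2 * s - 1) ⟨by linarith, by linarith [hs.2]⟩ (2 * t - 1)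
          ⟨by linarith, by linarith [ht.2]⟩
        rw [Real.dist_eq, abs_of_nonpos (by linarith)] at h3
        refine h3.trans ?_
        nlinarith
  intro s hs t ht
  push_cast
  rcases le_total s t with hst | hst
  · rw [Real.dist_eq, abs_of_nonpos (by linarith)]
    have := key s hs t ht hst
    simpa [neg_sub] using this
  · rw [dist_comm, Real.dist_eq, abs_of_nonneg (by linarith)]
    exact key t ht s hs hst

/-- Almost every point, pulled back by an affine map. -/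
lemma ae_affine {P : ℝ → Prop} (h : ∀ᵐ t : ℝ, P t) (b : ℝ) : ∀ᵐ t : ℝ, P (2 * t - b) := by
  have h1 : Measure.QuasiMeasurePreserving (fun t : ℝ => 2 * t) volume volume := by
    refine ⟨by fun_prop, ?_⟩
    have := Real.map_volume_mul_left (a := 2) two_ne_zero
    rw [this]
    exact Measure.smul_absolutelyContinuous
  have h2 : Measure.QuasiMeasurePreserving (fun t : ℝ => t - b) volume volume :=
    (measurePreserving_sub_right volume b).quasiMeasurePreserving
  exact (h2.comp h1).ae h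

/-- The triangle inequality for the Carnot-Carathéodory distance. -/
theorem dcc_triangle (ω : X →L[ℝ] X →L[ℝ] Z) (p q r : X × Z) :
    dcc ω p r ≤ dcc ω p q + dcc ω q r := by
  by_cases ht1 : dcc ω p q = ∞
  · rw [ht1, top_add]; exact le_top
  by_cases ht2 : dcc ω q r = ∞
  · rw [ht2, add_top]; exact le_top
  refine ENNReal.le_of_forall_pos_le_add fun ε hε _ => ?_
  have hε2 : (0 : ℝ≥0∞) < ε / 2 := by
    rw [ENNReal.div_pos_iff]
    exact ⟨by exact_mod_cast hε.ne', ENNReal.ofNat_ne_top⟩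
  have step : ∀ a b : X × Z, dcc ω a b ≠ ∞ → ∃ γ z, Horizontal ω γ z ∧ (γ 0, z 0) = a ∧
      (γ 1, z 1) = b ∧ eVariationOn γ (Icc 0 1) < dcc ω a b + ε / 2 := by
    intro a b hab
    have h1 : dcc ω a b < dcc ω a b + ε / 2 := ENNReal.lt_add_right hab hε2.ne'
    conv_lhs at h1 => unfold dcc
    simp only [iInf_lt_iff] at h1
    obtain ⟨γ, z, h1, h2, h3, h4⟩ := h1
    exact ⟨γ, z, h1, h2, h3, h4⟩
  obtain ⟨γ₁, z₁, H₁, a₁, b₁, c₁⟩ := step p q ht1
  obtain ⟨γ₂, z₂, H₂, a₂, b₂, c₂⟩ := step q r ht2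
  have hγ : γ₁ 1 = γ₂ 0 := by
    have := congrArg Prod.fst (b₁.trans a₂.symm); exact this
  have hz : z₁ 1 = z₂ 0 := by
    have := congrArg Prod.snd (b₁.trans a₂.symm); exact this
  set γ : ℝ → X := fun t => if t ≤ 1 / 2 then γ₁ (2 * t) else γ₂ (2 * t - 1) with hγdef
  set z : ℝ → Z := fun t => if t ≤ 1 / 2 then z₁ (2 * t) else z₂ (2 * t - 1) with hzdef
  have hH : Horizontal ω γ z := by
    obtain ⟨C₁, hC₁⟩ := H₁.lip_fst
    obtain ⟨C₂, hC₂⟩ := H₂.lip_fst
    obtain ⟨D₁, hD₁⟩ := H₁.lip_snd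
    obtain ⟨D₂, hD₂⟩ := H₂.lip_snd
    refine ⟨⟨_, glue_lip hC₁ hC₂ hγ⟩, ⟨_, glue_lip hD₁ hD₂ hz⟩, ?_⟩
    have e1 := ae_affine H₁.deriv 0
    have e2 := ae_affine H₂.deriv 1
    have e3 : ∀ᵐ t : ℝ, t ≠ 1 / 2 := by
      rw [ae_iff]; simp
    filter_upwards [e1, e2, e3] with t h1 h2 h3 hto
    rcases lt_or_gt_of_ne h3 with h4 | h4
    · rw [sub_zero] at h1
      obtain ⟨d1, d2⟩ := h1 ⟨by linarith [hto.1], by linarith⟩
      have hl : HasDerivAt (fun t : ℝ => 2 * t) 2 t := by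
        simpa using (hasDerivAt_id t).const_mul (2 : ℝ)
      have k1 : HasDerivAt (fun t => γ₁ (2 * t)) ((2 : ℝ) • _root_.deriv γ₁ (2 * t)) t :=
        HasDerivAt.scomp t d1.hasDerivAt hl
      have k2 : HasDerivAt (fun t => z₁ (2 * t))
          ((2 : ℝ) • ω (γ₁ (2 * t)) (_root_.deriv γ₁ (2 * t))) t :=
        HasDerivAt.scomp t d2 hl
      have ev : ∀ᶠ u in 𝓝 t, u ≤ 1 / 2 := (eventually_lt_nhds h4).mono fun u hu => hu.le
      have k3 : HasDerivAt γ ((2 : ℝ) • _root_.deriv γ₁ (2 * t)) t :=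
        k1.congr_of_eventuallyEq (ev.mono fun u hu => by simp only [hγdef]; rw [if_pos hu])
      have k4 : HasDerivAt z ((2 : ℝ) • ω (γ₁ (2 * t)) (_root_.deriv γ₁ (2 * t))) t :=
        k2.congr_of_eventuallyEq (ev.mono fun u hu => by simp only [hzdef]; rw [if_pos hu])
      refine ⟨k3.differentiableAt, ?_⟩
      rw [k3.deriv]
      have : γ t = γ₁ (2 * t) := by simp only [hγdef]; rw [if_pos h4.le]
      unfold ap
      rw [this, map_smul]
      exact k4
    · obtain ⟨d1, d2⟩ := h2 ⟨by linarith, by linarith [hto.2]⟩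
      have hl : HasDerivAt (fun t : ℝ => 2 * t - 1) 2 t := by
        simpa using ((hasDerivAt_id t).const_mul (2 : ℝ)).sub_const 1
      have k1 : HasDerivAt (fun t => γ₂ (2 * t - 1)) ((2 : ℝ) • _root_.deriv γ₂ (2 * t - 1)) t :=
        HasDerivAt.scomp t d1.hasDerivAt hl
      have k2 : HasDerivAt (fun t => z₂ (2 * t - 1))
          ((2 : ℝ) • ω (γ₂ (2 * t - 1)) (_root_.deriv γ₂ (2 * t - 1))) t :=
        HasDerivAt.scomp t d2 hl
      have ev : ∀ᶠ u in 𝓝 t, ¬ u ≤ 1 / 2 := (eventually_gt_nhds h4).mono fun u hu => not_le.2 hu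
      have k3 : HasDerivAt γ ((2 : ℝ) • _root_.deriv γ₂ (2 * t - 1)) t :=
        k1.congr_of_eventuallyEq (ev.mono fun u hu => by simp only [hγdef]; rw [if_neg hu])
      have k4 : HasDerivAt z ((2 : ℝ) • ω (γ₂ (2 * t - 1)) (_root_.deriv γ₂ (2 * t - 1))) t :=
        k2.congr_of_eventuallyEq (ev.mono fun u hu => by simp only [hzdef]; rw [if_neg hu])
      refine ⟨k3.differentiableAt, ?_⟩
      rw [k3.deriv]
      have : γ t = γ₂ (2 * t - 1) := by simp only [hγdef]; rw [if_neg (not_le.2 h4)]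
      unfold ap
      rw [this, map_smul]
      exact k4
  have hp : (γ 0, z 0) = p := by
    rw [← a₁]; simp [hγdef, hzdef]
  have hr : (γ 1, z 1) = r := by
    rw [← b₂]
    simp only [hγdef, hzdef]
    rw [if_neg (by norm_num), if_neg (by norm_num)]
    norm_num
  have hv : eVariationOn γ (Icc 0 1) ≤
      eVariationOn γ₁ (Icc 0 1) + eVariationOn γ₂ (Icc 0 1) := by
    rw [← Q95.Heis.eVar_add γ (by norm_num : (0 : ℝ) ≤ 1 / 2) (by norm_num : (1 / 2 : ℝ) ≤ 1)]
    refine add_le_add ?_ ?_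
    · have h1 : EqOn γ (γ₁ ∘ fun t => 2 * t) (Icc 0 (1 / 2)) := fun t ht => by
        simp only [hγdef, Function.comp_apply]; rw [if_pos ht.2]
      rw [eVariationOn.eq_of_eqOn h1]
      exact eVariationOn.comp_le_of_monotoneOn _ _ (fun a _ b _ hab => by
        show 2 * a ≤ 2 * b
        linarith) fun t ht => ⟨by linarith [ht.1], by linarith [ht.2]⟩
    · have h1 : EqOn γ (γ₂ ∘ fun t => 2 * t - 1) (Icc (1 / 2) 1) := fun t ht => by
        simp only [hγdef, Function.comp_apply]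
        rcases ht.1.eq_or_lt with e | e
        · rw [← e, if_pos le_rfl]
          norm_num
          exact hγ
        · rw [if_neg (not_le.2 e)]
      rw [eVariationOn.eq_of_eqOn h1]
      exact eVariationOn.comp_le_of_monotoneOn _ _ (fun a _ b _ hab => by
        show 2 * a - 1 ≤ 2 * b - 1
        linarith) fun t ht => ⟨by linarith [ht.1], by linarith [ht.2]⟩
  calc dcc ω p r ≤ eVariationOn γ (Icc 0 1) :=
        iInf_le_of_le γ (iInf_le_of_le z (iInf_le_of_le hH (iInf_le_of_le hp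
          (iInf_le_of_le hr le_rfl))))
    _ ≤ eVariationOn γ₁ (Icc 0 1) + eVariationOn γ₂ (Icc 0 1) := hv
    _ ≤ (dcc ω p q + ε / 2) + (dcc ω q r + ε / 2) := add_le_add c₁.le c₂.le
    _ = dcc ω p q + dcc ω q r + ε := by
      rw [add_add_add_comm, ENNReal.add_halves]

/-- A square loop moves the central coordinate by `2 ω(U, W)`. -/
lemma dcc_loop {ω : X →L[ℝ] X →L[ℝ] Z} (hω : ∀ x, ω x x = 0) (y U W : X) (s : Z) :
    dcc ω (y, s) (y, s + (2 : ℝ) • ω U W) ≤ ENNReal.ofReal (2 * (‖U‖ + ‖W‖)) := by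
  have hanti : ∀ a b, ω a b = - ω b a := by
    intro a b
    have h1 := hω (a + b)
    simp only [map_add, add_apply, hω, zero_add, add_zero] at h1
    exact eq_neg_of_add_eq_zero_right h1
  have h1 := dcc_straight hω y U s
  have h2 := dcc_straight hω (y + U) W (s + ω y U)
  have h3 := dcc_straight hω (y + U + W) (-U) (s + ω y U + ω (y + U) W)
  have h4 := dcc_straight hω (y + U + W + -U) (-W)
    (s + ω y U + ω (y + U) W + ω (y + U + W) (-U))
  have e1 : y + U + W + -U + -W = y := by abel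
  have e2 : s + ω y U + ω (y + U) W + ω (y + U + W) (-U) + ω (y + U + W + -U) (-W) =
      s + (2 : ℝ) • ω U W := by
    simp only [map_add, map_neg, add_apply, neg_apply, hω, hanti W U]
    rw [two_smul]
    abel
  rw [e1, e2] at h4
  rw [norm_neg] at h3 h4
  calc dcc ω (y, s) (y, s + (2 : ℝ) • ω U W)
      ≤ dcc ω (y, s) (y + U, s + ω y U) + (dcc ω (y + U, s + ω y U)
        (y + U + W, s + ω y U + ω (y + U) W) +
        (dcc ω (y + U + W, s + ω y U + ω (y + U) W)
          (y + U + W + -U, s + ω y U + ω (y + U) W + ω (y + U + W) (-U)) +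
        dcc ω (y + U + W + -U, s + ω y U + ω (y + U) W + ω (y + U + W) (-U))
          (y, s + (2 : ℝ) • ω U W))) :=
        (dcc_triangle ω _ _ _).trans (add_le_add le_rfl ((dcc_triangle ω _ _ _).trans
          (add_le_add le_rfl (dcc_triangle ω _ _ _))))
    _ ≤ ENNReal.ofReal ‖U‖ + (ENNReal.ofReal ‖W‖ + (ENNReal.ofReal ‖U‖ +
        ENNReal.ofReal ‖W‖)) := add_le_add h1 (add_le_add h2 (add_le_add h3 h4))
    _ = ENNReal.ofReal (2 * (‖U‖ + ‖W‖)) := by
      rw [← ENNReal.ofReal_add (by positivity) (by positivity),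
        ← ENNReal.ofReal_add (by positivity) (by positivity),
        ← ENNReal.ofReal_add (by positivity) (by positivity)]
      congr 1; ring

/-- A central move along a value of `ω`. -/
lemma dcc_central {ω : X →L[ℝ] X →L[ℝ] Z} (hω : ∀ x, ω x x = 0) (y u w : X) (s : Z) (c : ℝ) :
    dcc ω (y, s) (y, s + c • ω u w) ≤
      ENNReal.ofReal (2 * (‖u‖ + ‖w‖) * Real.sqrt (|c| / 2)) := by
  set ρ := Real.sqrt (|c| / 2) with hρ
  have hρ2 : ρ * ρ = |c| / 2 := Real.mul_self_sqrt (by positivity)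
  have hρ0 : 0 ≤ ρ := Real.sqrt_nonneg _
  rcases le_total 0 c with hc | hc
  · have h := dcc_loop hω y (ρ • u) (ρ • w) s
    have e : (2 : ℝ) • ω (ρ • u) (ρ • w) = c • ω u w := by
      simp only [map_smul, smul_apply, smul_smul]
      congr 1
      rw [abs_of_nonneg hc] at hρ2
      linarith
    rw [e, norm_smul, norm_smul, Real.norm_of_nonneg hρ0] at h
    refine h.trans (le_of_eq ?_)
    congr 1; ring
  · have h := dcc_loop hω y (ρ • u) (-(ρ • w)) s
    have e : (2 : ℝ) • ω (ρ • u) (-(ρ • w)) = c • ω u w := by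
      simp only [map_smul, map_neg, smul_apply, smul_neg, smul_smul, ← neg_smul]
      congr 1
      rw [abs_of_nonpos hc] at hρ2
      linarith
    rw [e, norm_neg, norm_smul, norm_smul, Real.norm_of_nonneg hρ0] at h
    refine h.trans (le_of_eq ?_)
    congr 1; ring

/-- The upper bound for the distance. -/
theorem dcc_le [FiniteDimensional ℝ Z] {ω : X →L[ℝ] X →L[ℝ] Z} (hω : ∀ x, ω x x = 0)
    (hspan : Submodule.span ℝ {z : Z | ∃ x y, ω x y = z} = ⊤) :
    ∃ C : ℝ, 0 < C ∧ ∀ p q : X × Z, dcc ω p q ≤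
      ENNReal.ofReal (C * max ‖q.1 - p.1‖ (Real.sqrt ‖q.2 - p.2 - ω p.1 q.1‖)) := by
  classical
  obtain ⟨b, hb, hbs, hli⟩ := exists_linearIndependent ℝ {z : Z | ∃ x y, ω x y = z}
  rw [hspan] at hbs
  have hfin : Finite b := hli.finite
  have : Fintype b := Fintype.ofFinite b
  have hsp : ⊤ ≤ Submodule.span ℝ (Set.range ((↑) : b → Z)) := by
    rw [Subtype.range_coe, hbs]
  let B : Module.Basis b ℝ Z := Module.Basis.mk hli hsp
  have hB : ∀ i : b, B i = (i : Z) := fun i => by simp [B]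
  have hval : ∀ i : b, ∃ x y, ω x y = (i : Z) := fun i => hb i.2
  choose u w huw using hval
  -- bound of the coordinates
  obtain ⟨K, hK0, hK⟩ : ∃ K : ℝ, 0 ≤ K ∧ ∀ (c : Z) (i : b), |B.repr c i| ≤ K * ‖c‖ := by
    refine ⟨‖(B.equivFunL : Z →L[ℝ] (b → ℝ))‖, norm_nonneg _, fun c i => ?_⟩
    have h1 := (B.equivFunL : Z →L[ℝ] (b → ℝ)).le_opNorm c
    refine le_trans ?_ h1
    exact norm_le_pi_norm ((B.equivFunL : Z →L[ℝ] (b → ℝ)) c) i
  -- central moves
  have central : ∀ (T : Finset b) (y : X) (s : Z) (c : Z),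
      dcc ω (y, s) (y, s + ∑ i ∈ T, (B.repr c i) • (i : Z)) ≤
        ENNReal.ofReal (∑ i ∈ T, 2 * (‖u i‖ + ‖w i‖) * Real.sqrt (K * ‖c‖ / 2)) := by
    intro T
    induction T using Finset.induction_on with
    | empty =>
      intro y s c
      have := dcc_straight hω y 0 s
      simpa using this
    | insert i T hi ih =>
      intro y s c
      rw [Finset.sum_insert hi, Finset.sum_insert hi]
      have h1 := dcc_central hω y (u i) (w i) s (B.repr c i)
      rw [huw] at h1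
      have h2 := ih y (s + (B.repr c i) • (i : Z)) c
      rw [add_assoc] at h2
      refine (dcc_triangle ω _ _ _).trans ((add_le_add h1 h2).trans ?_)
      rw [ENNReal.ofReal_add (by positivity) (by positivity)]
      gcongr
      exact hK c i
  set S : ℝ := ∑ i : b, 2 * (‖u i‖ + ‖w i‖) with hS
  have hS0 : 0 ≤ S := by positivity
  refine ⟨1 + S * Real.sqrt (K / 2), by positivity, ?_⟩
  rintro ⟨x, s⟩ ⟨y, t⟩
  simp only
  set c : Z := t - s - ω x y with hc
  have hxy : ω x (y - x) = ω x y := by rw [map_sub, hω, sub_zero]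
  have h1 := dcc_straight hω x (y - x) s
  rw [hxy, add_sub_cancel] at h1
  have h2 := central Finset.univ y (s + ω x y) c
  have e : ∑ i : b, (B.repr c i) • (i : Z) = c := by
    have := B.sum_repr c
    simpa only [hB] using this
  rw [e, show s + ω x y + c = t by rw [hc]; abel, ← Finset.sum_mul, ← hS] at h2
  refine (dcc_triangle ω _ _ _).trans ((add_le_add h1 h2).trans ?_)
  rw [← ENNReal.ofReal_add (by positivity) (by positivity)]
  apply ENNReal.ofReal_le_ofReal
  have e2 : Real.sqrt (K * ‖c‖ / 2) = Real.sqrt (K / 2) * Real.sqrt ‖c‖ := by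
    rw [← Real.sqrt_mul (by positivity)]
    congr 1; ring
  rw [e2, add_mul, one_mul]
  have m1 : ‖y - x‖ ≤ max ‖y - x‖ (Real.sqrt ‖c‖) := le_max_left _ _
  have m2 : Real.sqrt ‖c‖ ≤ max ‖y - x‖ (Real.sqrt ‖c‖) := le_max_right _ _
  have m3 : S * (Real.sqrt (K / 2) * Real.sqrt ‖c‖) ≤
      S * Real.sqrt (K / 2) * max ‖y - x‖ (Real.sqrt ‖c‖) := by
    rw [← mul_assoc]
    gcongr
  linarith

end Pool.Agent.KS6_94.UM
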