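import Pool.Agent.KS6_94.UM.A
import Pool.Graph.R_pool_sql_team_seeded_3997aac3.Q95.HeisE

/-!
# The umbel inequality for the quasi-metric `max ‖x‖ (λ √‖s‖)` on `X × Z`

Adapted from `Q95.HeisD` and `Q95.HeisE` (the case `Z = ℝ`).
-/

set_option autoImplicit false

namespace Pool.Agent.KS6_94.UM

open Set Filter
open Q95.Heis (betaMod HasBetaP beta_use beta_gap mean_le mean_lt far_radii central_dom sub_rpow_le)
open scoped ENNReal NNReal Topology

variable {X Z : Type*} [NormedAddCommGroup X] [NormedSpace ℝ X] [NormedAddCommGroup Z]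
  [NormedSpace ℝ Z]

/-- The quasi-metric. -/
noncomputable def hd (ω : X →L[ℝ] X →L[ℝ] Z) (lam : ℝ) (p q : X × Z) : ℝ :=
  max ‖p.1 - q.1‖ (lam * Real.sqrt ‖p.2 - q.2 + ω p.1 q.1‖)

lemma anti {ω : X →L[ℝ] X →L[ℝ] Z} (hω : ∀ x, ω x x = 0) (a b : X) : ω a b = - ω b a := by
  have h1 := hω (a + b)
  simp only [map_add, add_apply, hω, zero_add, add_zero] at h1
  exact eq_neg_of_add_eq_zero_right h1

lemma hd_symm {ω : X →L[ℝ] X →L[ℝ] Z} (hω : ∀ x, ω x x = 0) (lam : ℝ) (p q : X × Z) :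
    hd ω lam p q = hd ω lam q p := by
  unfold hd
  have h : p.2 - q.2 + ω p.1 q.1 = -(q.2 - p.2 + ω q.1 p.1) := by
    rw [anti hω p.1 q.1]; abel
  rw [norm_sub_rev, h, norm_neg]

lemma hd_nonneg (ω : X →L[ℝ] X →L[ℝ] Z) (lam : ℝ) (p q : X × Z) : 0 ≤ hd ω lam p q :=
  (norm_nonneg _).trans (le_max_left _ _)

/-- Left translation by the inverse of `z`. -/
noncomputable def tr (ω : X →L[ℝ] X →L[ℝ] Z) (z w : X × Z) : X × Z :=
  (w.1 - z.1, w.2 - z.2 + ω w.1 z.1)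

lemma hd_tr {ω : X →L[ℝ] X →L[ℝ] Z} (hω : ∀ x, ω x x = 0) (lam : ℝ) (z p q : X × Z) :
    hd ω lam (tr ω z p) (tr ω z q) = hd ω lam p q := by
  unfold hd tr
  simp only [map_sub, sub_apply]
  rw [hω, anti hω z.1 q.1]
  congr 1
  · congr 1; abel
  · congr 3; abel

lemma tr_self {ω : X →L[ℝ] X →L[ℝ] Z} (hω : ∀ x, ω x x = 0) (z : X × Z) : tr ω z z = (0, 0) := by
  simp [tr, hω]

/-- The separation lemma. -/
lemma separation [FiniteDimensional ℝ Z] {ω : X →L[ℝ] X →L[ℝ] Z} (hω : ∀ x, ω x x = 0) {lam T B : ℝ} (hlam : 0 < lam)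
    (hlω : lam ^ 2 * ‖ω‖ ≤ 1 / 8) (hT : 0 < T) (y : ℕ → X) (s : ℕ → Z)
    (hyB : ∀ n, ‖y n‖ ≤ B) (hsB : ∀ n, lam ^ 2 * ‖s n‖ ≤ B ^ 2)
    (hT' : ∀ i, ∀ᶠ j in atTop, T ≤ hd ω lam (y i, s i) (y j, s j)) :
    ∃ φ : ℕ → ℕ, ∀ m n, m ≠ n → T / 4 ≤ ‖y (φ m) - y (φ n)‖ := by
  by_cases h : ∀ S : Finset ℕ, ∃ n, ∀ m ∈ S, T / 4 ≤ ‖y m - y n‖
  · obtain ⟨φ, -, hφ⟩ := exists_seq_of_forall_finset_exists (fun _ : ℕ => True)
      (fun m n => T / 4 ≤ ‖y m - y n‖) fun S _ => by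
        obtain ⟨n, hn⟩ := h S
        exact ⟨n, trivial, hn⟩
    refine ⟨φ, fun m n hmn => ?_⟩
    rcases lt_or_gt_of_ne hmn with h1 | h1
    · exact hφ m n h1
    · rw [norm_sub_rev]; exact hφ n m h1
  · exfalso
    push Not at h
    obtain ⟨S, hS⟩ := h
    obtain ⟨m, -, hm⟩ : ∃ m ∈ S, ∃ᶠ n in atTop, ‖y m - y n‖ < T / 4 := by
      by_contra hcon
      push Not at hcon
      have h1 : ∀ᶠ n in (atTop : Filter ℕ), ∀ m ∈ S, ¬ ‖y m - y n‖ < T / 4 := by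
        rw [eventually_all_finset]
        intro m hm
        have := hcon m hm
        simpa using this
      obtain ⟨n, hn⟩ := h1.exists
      obtain ⟨m, hmS, hmn⟩ := hS n
      exact hn m hmS hmn
    obtain ⟨φ, hφ, hφm⟩ := extraction_of_frequently_atTop hm
    have hclose : ∀ k l, ‖y (φ k) - y (φ l)‖ < T / 2 := by
      intro k l
      have h1 := hφm k
      have h2 := hφm l
      have : y (φ k) - y (φ l) = (y m - y (φ l)) - (y m - y (φ k)) := by abel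
      rw [this]
      linarith [norm_sub_le (y m - y (φ l)) (y m - y (φ k))]
    have hB0 : 0 ≤ B := (norm_nonneg _).trans (hyB 0)
    have hl2 : 0 < lam ^ 2 := by positivity
    have hωle : ∀ u v : X, ‖ω u v‖ ≤ ‖ω‖ * ‖u‖ * ‖v‖ := by
      intro u v
      have := ω.le_opNorm₂ u v
      simpa using this
    set f : ℕ → Z := fun k => s (φ 0) - s (φ k) + ω (y (φ 0)) (y (φ k)) with hf
    have hfb : ∀ k, f k ∈ Metric.closedBall (0 : Z) (4 * B ^ 2 / lam ^ 2) := by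
      intro k
      rw [mem_closedBall_zero_iff, le_div_iff₀ hl2]
      have h1 := hsB (φ 0)
      have h2 := hsB (φ k)
      have h3 := hωle (y (φ 0)) (y (φ k))
      have h4 : ‖ω‖ * ‖y (φ 0)‖ * ‖y (φ k)‖ ≤ ‖ω‖ * B * B := by
        have := norm_nonneg ω
        gcongr
        · exact hyB _
        · exact hyB _
      have h5 : ‖f k‖ ≤ ‖s (φ 0)‖ + ‖s (φ k)‖ + ‖ω (y (φ 0)) (y (φ k))‖ := by
        rw [hf]
        refine (norm_add_le _ _).trans (add_le_add (norm_sub_le _ _) le_rfl)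
      have h6 : ‖f k‖ ≤ ‖s (φ 0)‖ + ‖s (φ k)‖ + ‖ω‖ * B * B := by linarith
      have h7 : ‖f k‖ * lam ^ 2 ≤ (‖s (φ 0)‖ + ‖s (φ k)‖ + ‖ω‖ * B * B) * lam ^ 2 :=
        mul_le_mul_of_nonneg_right h6 hl2.le
      have h8 : (lam ^ 2 * ‖ω‖) * (B * B) ≤ 1 / 8 * (B * B) :=
        mul_le_mul_of_nonneg_right hlω (by positivity)
      nlinarith
    have := FiniteDimensional.proper_real Z
    obtain ⟨L, -, ψ, hψ, hlim⟩ := tendsto_subseq_of_bounded Metric.isBounded_closedBall hfb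
    obtain ⟨N, hN⟩ := Metric.cauchySeq_iff'.mp hlim.cauchySeq (T ^ 2 / (2 * lam ^ 2))
      (by positivity)
    have e1 := (hφ.comp hψ).tendsto_atTop.eventually (hT' (φ (ψ N)))
    obtain ⟨k, hk1, hk2⟩ := (e1.and (eventually_ge_atTop N)).exists
    have h1 := hN k hk2
    simp only [Function.comp_apply] at h1 hk1
    rw [dist_eq_norm] at h1
    unfold hd at hk1
    simp only at hk1
    rcases le_max_iff.mp hk1 with h2 | h2
    · linarith [hclose (ψ N) (ψ k)]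
    · have h3 : T ^ 2 ≤ lam ^ 2 * ‖s (φ (ψ N)) - s (φ (ψ k)) + ω (y (φ (ψ N))) (y (φ (ψ k)))‖ := by
        have := pow_le_pow_left₀ hT.le h2 2
        rwa [mul_pow, Real.sq_sqrt (norm_nonneg _)] at this
      have h4 : s (φ (ψ N)) - s (φ (ψ k)) + ω (y (φ (ψ N))) (y (φ (ψ k))) =
          (f (ψ k) - f (ψ N)) + ω (y (φ (ψ N)) - y (φ 0)) (y (φ (ψ k)) - y (φ (ψ N))) := by
        simp only [hf, map_sub, sub_apply]
        rw [hω]; abel
      have h5 := hωle (y (φ (ψ N)) - y (φ 0)) (y (φ (ψ k)) - y (φ (ψ N)))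
      have h6 : ‖ω‖ * ‖y (φ (ψ N)) - y (φ 0)‖ * ‖y (φ (ψ k)) - y (φ (ψ N))‖ ≤
          ‖ω‖ * (T / 2) * (T / 2) := by
        have := norm_nonneg ω
        gcongr
        · exact (hclose _ _).le
        · exact (hclose _ _).le
      have h7 : ‖s (φ (ψ N)) - s (φ (ψ k)) + ω (y (φ (ψ N))) (y (φ (ψ k)))‖ ≤
          T ^ 2 / (2 * lam ^ 2) + ‖ω‖ * (T / 2) * (T / 2) := by
        rw [h4]
        exact (norm_add_le _ _).trans (add_le_add h1.le (h5.trans h6))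
      have h8 : lam ^ 2 * (T ^ 2 / (2 * lam ^ 2)) = T ^ 2 / 2 := by field_simp
      have h9 : (lam ^ 2 * ‖ω‖) * (T ^ 2) ≤ 1 / 8 * T ^ 2 :=
        mul_le_mul_of_nonneg_right hlω (by positivity)
      have h10 := mul_le_mul_of_nonneg_left h7 hl2.le
      have hT2 : 0 < T ^ 2 := by positivity
      nlinarith

lemma hd_sq_le {ω : X →L[ℝ] X →L[ℝ] Z} {lam : ℝ} (hlω : lam ^ 2 * ‖ω‖ ≤ 1 / 8)
    {a b : X} {s t : Z} {A B : ℝ} (hA : 0 ≤ A) (hB : 0 ≤ B) (ha : ‖a‖ ≤ A) (hb : ‖b‖ ≤ B)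
    (hs : lam ^ 2 * ‖s‖ ≤ A ^ 2) (ht : lam ^ 2 * ‖t‖ ≤ B ^ 2) :
    (lam * Real.sqrt ‖s - t + ω a b‖) ^ 2 ≤ A ^ 2 + B ^ 2 + A * B := by
  rw [mul_pow, Real.sq_sqrt (norm_nonneg _)]
  have h1 : ‖ω a b‖ ≤ ‖ω‖ * A * B := by
    have h2 := ω.le_opNorm₂ a b
    refine h2.trans ?_
    have := norm_nonneg ω
    gcongr
  have h3 : ‖s - t + ω a b‖ ≤ ‖s‖ + ‖t‖ + ‖ω‖ * A * B := by
    refine (norm_add_le _ _).trans (add_le_add (norm_sub_le _ _) h1)
  have h4 := mul_le_mul_of_nonneg_left h3 (sq_nonneg lam)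
  have h5 : (lam ^ 2 * ‖ω‖) * (A * B) ≤ 1 / 8 * (A * B) :=
    mul_le_mul_of_nonneg_right hlω (by positivity)
  have h6 : 0 ≤ A * B := by positivity
  nlinarith

/-- The core inequality, centred at the identity. -/
theorem core_zero (Z : Type*) [NormedAddCommGroup Z]
    [NormedSpace ℝ Z] [FiniteDimensional ℝ Z] {p c : ℝ} (hp : 1 < p) (hc : 0 < c)
    (hβ : ∀ t : ℝ, 0 < t → t ≤ 2 → c * t ^ p ≤ betaMod X t) :
    ∃ κ : ℝ, 0 < κ ∧ ∀ (ω : X →L[ℝ] X →L[ℝ] Z), (∀ x, ω x x = 0) → ∀ lam : ℝ, 0 < lam →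
      lam ^ 2 * ‖ω‖ ≤ 1 / 8 → ∀ (w : X × Z) (x : ℕ → X × Z) (I T B : ℝ), 0 ≤ I → 0 ≤ T →
      (∀ n, I ≤ hd ω lam w (x n)) → (∀ i, ∀ᶠ j in atTop, T ≤ hd ω lam (x i) (x j)) →
      (∀ n, hd ω lam (x n) (0, 0) ≤ B) →
      (I / 2) ^ p + κ * T ^ p ≤ (hd ω lam w (0, 0) ^ p + B ^ p) / 2 := by
  have hp0 : 0 < p := by linarith
  obtain ⟨ρ₁, h10, h11, hρ₁⟩ := central_dom hp
  obtain ⟨ρ₂, h20, h21, hρ₂⟩ := far_radii hp
  have h2p : 0 < (2 : ℝ) ^ (p + 1) := by positivity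
  have h8p : 0 < (8 : ℝ) ^ p := by positivity
  refine ⟨min ((1 - ρ₁) / 2 ^ (p + 1)) (min ((1 - ρ₂) / 2 ^ (p + 1)) (c / 8 ^ p)),
    lt_min (div_pos (by linarith) h2p) (lt_min (div_pos (by linarith) h2p) (by positivity)), ?_⟩
  intro ω hω lam hlam hlω w x I T B hI0 hT0 hI hT hB
  set κ := min ((1 - ρ₁) / 2 ^ (p + 1)) (min ((1 - ρ₂) / 2 ^ (p + 1)) (c / 8 ^ p)) with hκ
  have hκ1 : κ ≤ (1 - ρ₁) / 2 ^ (p + 1) := min_le_left _ _
  have hκ2 : κ ≤ (1 - ρ₂) / 2 ^ (p + 1) := (min_le_right _ _).trans (min_le_left _ _)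
  have hκ3 : κ ≤ c / 8 ^ p := (min_le_right _ _).trans (min_le_right _ _)
  have hκ0 : 0 < κ :=
    lt_min (div_pos (by linarith) h2p) (lt_min (div_pos (by linarith) h2p) (by positivity))
  obtain ⟨a, s⟩ := w
  set A : ℝ := hd ω lam (a, s) (0, 0) with hA
  have hA0 : 0 ≤ A := hd_nonneg _ _ _ _
  have hB0 : 0 ≤ B := (hd_nonneg _ _ _ _).trans (hB 0)
  have haA : ‖a‖ ≤ A := by
    rw [hA]; unfold hd; simp
  have hcen : ∀ (q : X × Z) (D : ℝ), hd ω lam q (0, 0) ≤ D →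
      ‖q.1‖ ≤ D ∧ lam ^ 2 * ‖q.2‖ ≤ D ^ 2 := by
    intro q D hD
    unfold hd at hD
    simp only [sub_zero, map_zero, add_zero] at hD
    have h1 := (le_max_left _ _).trans hD
    have h2 := (le_max_right _ _).trans hD
    refine ⟨h1, ?_⟩
    have h3 := pow_le_pow_left₀ (by positivity) h2 2
    rwa [mul_pow, Real.sq_sqrt (norm_nonneg _)] at h3
  have hsA : lam ^ 2 * ‖s‖ ≤ A ^ 2 := (hcen (a, s) A le_rfl).2
  have hyB : ∀ n, ‖(x n).1‖ ≤ B := fun n => (hcen (x n) B (hB n)).1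
  have hsB : ∀ n, lam ^ 2 * ‖(x n).2‖ ≤ B ^ 2 := fun n => (hcen (x n) B (hB n)).2
  -- bound on `T`
  have hT2 : T ≤ 2 * B := by
    obtain ⟨j, hj⟩ := (hT 0).exists
    refine hj.trans ?_
    unfold hd
    refine max_le ?_ ?_
    · have := norm_sub_le (x 0).1 (x j).1
      linarith [hyB 0, hyB j]
    · have h1 := hd_sq_le hlω hB0 hB0 (hyB 0) (hyB j) (hsB 0) (hsB j)
      apply le_of_sq_le_sq _ (by positivity)
      refine h1.trans ?_
      nlinarith [sq_nonneg B]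
  have hAp : 0 ≤ A ^ p := Real.rpow_nonneg hA0 p
  have hBp : 0 ≤ B ^ p := Real.rpow_nonneg hB0 p
  -- a factor gives the inequality
  have factor : ∀ ρ : ℝ, ρ < 1 → κ ≤ (1 - ρ) / 2 ^ (p + 1) →
      (I / 2) ^ p ≤ ρ * ((A ^ p + B ^ p) / 2) → (I / 2) ^ p + κ * T ^ p ≤ (A ^ p + B ^ p) / 2 := by
    intro ρ hρ hκρ h
    have h1 : T ^ p ≤ 2 ^ p * B ^ p := by
      rw [← Real.mul_rpow (by norm_num) hB0]
      exact Real.rpow_le_rpow hT0 hT2 hp0.le
    have h2 : κ * T ^ p ≤ (1 - ρ) / 2 ^ (p + 1) * (2 ^ p * B ^ p) :=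
      mul_le_mul hκρ h1 (Real.rpow_nonneg hT0 p) (div_nonneg (by linarith) h2p.le)
    have h3 : (1 - ρ) / 2 ^ (p + 1) * (2 ^ p * B ^ p) = (1 - ρ) * (B ^ p / 2) := by
      rw [Real.rpow_add_one (by norm_num : (2 : ℝ) ≠ 0)]
      have : (2 : ℝ) ^ p ≠ 0 := by positivity
      field_simp
    have h4 : (1 - ρ) * (B ^ p / 2) ≤ (1 - ρ) * ((A ^ p + B ^ p) / 2) :=
      mul_le_mul_of_nonneg_left (by linarith) (by linarith)
    linarith
  by_cases hcase : ∃ n, ‖a - (x n).1‖ ≤ lam * Real.sqrt ‖s - (x n).2 + ω a (x n).1‖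
  · -- Case 1
    obtain ⟨n, hn⟩ := hcase
    apply factor ρ₁ h11 hκ1
    apply hρ₁ A B I hA0 hB0 hI0
    have h1 := hI n
    unfold hd at h1
    simp only at h1
    rw [max_eq_right hn] at h1
    exact (pow_le_pow_left₀ hI0 h1 2).trans
      (hd_sq_le hlω hA0 hB0 haA (hyB n) hsA (hsB n))
  · -- Case 2
    push Not at hcase
    have hI' : ∀ n, I ≤ ‖a - (x n).1‖ := by
      intro n
      have h1 := hI n
      unfold hd at h1
      simp only at h1
      rwa [max_eq_left (hcase n).le] at h1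
    have hIAB : I ≤ A + B := by
      have h1 := hI' 0
      have h2 := norm_sub_le a (x 0).1
      linarith [hyB 0]
    have hu : (I / 2) ^ p ≤ ((A + B) / 2) ^ p :=
      Real.rpow_le_rpow (by positivity) (by linarith) hp0.le
    rcases eq_or_lt_of_le hT0 with hT00 | hT00
    · rw [← hT00, Real.zero_rpow hp0.ne', mul_zero, add_zero]
      exact hu.trans (mean_le hp hA0 hB0)
    · have hBpos : 0 < B := by linarith
      rcases le_total A (B / 2) with hAB | hAB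
      · exact factor ρ₂ h21 hκ2 (hu.trans (hρ₂ A B hA0 hAB))
      · obtain ⟨φ, hφ⟩ := separation hω hlam hlω hT00 (fun n => (x n).1) (fun n => (x n).2)
          hyB hsB hT
        have hgap := beta_gap (I := I) (a := a) (y := fun n => (x (φ n)).1) hβ hA0 haA hBpos
          (fun n => hyB (φ n)) (by positivity : 0 < T / 4) hφ (fun n => hI' (φ n))
        have hm : B / 2 ≤ min A B := le_min hAB (by linarith)
        set u : ℝ := (A + B) / 2 with hudef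
        have hu0 : 0 < u := by rw [hudef]; linarith
        set δ : ℝ := B / 2 * (c * (T / 4 / B) ^ p) with hδ
        have hδ0 : 0 ≤ δ := by positivity
        have hIu : I / 2 ≤ u - δ := by
          have h1 : B / 2 * (c * (T / 4 / B) ^ p) ≤ min A B * (c * (T / 4 / B) ^ p) :=
            mul_le_mul_of_nonneg_right hm (by positivity)
          rw [hudef, hδ]
          linarith
        have hδu : δ ≤ u := by linarith
        have h1 : (I / 2) ^ p ≤ u ^ p - δ * u ^ (p - 1) :=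
          (Real.rpow_le_rpow (by positivity) hIu hp0.le).trans (sub_rpow_le hp hu0 hδ0 hδu)
        have h2 : (B / 2) ^ (p - 1) ≤ u ^ (p - 1) :=
          Real.rpow_le_rpow (by positivity) (by rw [hudef]; linarith) (by linarith)
        have h3 : c * (T / 8) ^ p ≤ δ * u ^ (p - 1) := by
          have h4 : δ * (B / 2) ^ (p - 1) ≤ δ * u ^ (p - 1) := mul_le_mul_of_nonneg_left h2 hδ0
          have h5 : δ * (B / 2) ^ (p - 1) = c * (T / 8) ^ p := by
            have h6 : (B / 2) * (B / 2) ^ (p - 1) = (B / 2) ^ p := by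
              rw [mul_comm, ← Real.rpow_add_one (by positivity)]; congr 1; ring
            have h7 : (B / 2) ^ p * (T / 4 / B) ^ p = (T / 8) ^ p := by
              rw [← Real.mul_rpow (by positivity) (by positivity)]
              congr 1
              field_simp
              norm_num
            rw [hδ]
            calc B / 2 * (c * (T / 4 / B) ^ p) * (B / 2) ^ (p - 1)
                = c * (((B / 2) * (B / 2) ^ (p - 1)) * (T / 4 / B) ^ p) := by ring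
              _ = c * (T / 8) ^ p := by rw [h6, h7]
          linarith
        have h8 : κ * T ^ p ≤ c * (T / 8) ^ p := by
          rw [Real.div_rpow hT0 (by norm_num)]
          calc κ * T ^ p ≤ c / 8 ^ p * T ^ p :=
                mul_le_mul_of_nonneg_right hκ3 (Real.rpow_nonneg hT0 p)
            _ = c * (T ^ p / 8 ^ p) := by ring
        have h9 := mean_le hp hA0 hB0
        linarith

/-- The core inequality. -/
theorem core (Z : Type*) [NormedAddCommGroup Z]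
    [NormedSpace ℝ Z] [FiniteDimensional ℝ Z] {p c : ℝ} (hp : 1 < p) (hc : 0 < c)
    (hβ : ∀ t : ℝ, 0 < t → t ≤ 2 → c * t ^ p ≤ betaMod X t) :
    ∃ κ : ℝ, 0 < κ ∧ ∀ (ω : X →L[ℝ] X →L[ℝ] Z), (∀ x, ω x x = 0) → ∀ lam : ℝ, 0 < lam →
      lam ^ 2 * ‖ω‖ ≤ 1 / 8 → ∀ (w z : X × Z) (x : ℕ → X × Z) (I T B : ℝ), 0 ≤ I → 0 ≤ T →
      (∀ n, I ≤ hd ω lam w (x n)) → (∀ i, ∀ᶠ j in atTop, T ≤ hd ω lam (x i) (x j)) →
      (∀ n, hd ω lam (x n) z ≤ B) →
      (I / 2) ^ p + κ * T ^ p ≤ (hd ω lam w z ^ p + B ^ p) / 2 := by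
  obtain ⟨κ, hκ, h⟩ := core_zero (X := X) Z hp hc hβ
  refine ⟨κ, hκ, fun ω hω lam hlam hlω w z x I T B hI0 hT0 hI hT hB => ?_⟩
  have h1 := h ω hω lam hlam hlω (tr ω z w) (fun n => tr ω z (x n)) I T B hI0 hT0
    (fun n => by rw [hd_tr hω]; exact hI n)
    (fun i => by
      filter_upwards [hT i] with j hj
      rw [hd_tr hω]; exact hj)
    (fun n => by rw [← tr_self hω z, hd_tr hω]; exact hB n)
  rwa [← tr_self hω z, hd_tr hω] at h1

end Pool.Agent.KS6_94.UM
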